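import Pool.Agent.Helper46.NU.Names

/-!
# MP_1fe1ca_lc, packet NON

The proof is uniform in an index type `ι` of random coordinates; the degenerate cases `A` empty
or `B` empty are also treated.
-/

open MeasureTheory Filter Topology Set

noncomputable section

namespace NU.PkNON

open NU Pool.Agent.Helper97.Ku

/-- The core of the argument, for an abstract family `r` of random coordinates. -/
theorem core (ex1 : G_EX1) (fam : G_FAM) (rea : G_REA) (in2 : G_IN2) (avo : G_AVO)
    (S : Sys) (L : Type) [CompleteBooleanAlgebra L] (e : Set (Pt S) → L) (alg : AlgI S L e)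
    (ι : Type) (r : ι → S.C) (hr : ∀ i, ¬ S.gen (r i))
    (P1 : ∀ Γ : Set S.C, Γ.Countable → ∃ i, ∀ c ∈ Γ, c ≠ r i ∧ ¬ S.see c (r i))
    (P2 : ∀ Γ : ι → Set S.C, (∀ i, (Γ i).Countable) →
      ∃ c₀, ¬ S.gen c₀ ∧ ∀ i, ∀ c ∈ Γ i, c ≠ c₀ ∧ ¬ S.see c c₀) :
    nonV (omN : BSet L) = ⊤ := by
  have meas : ∀ c : S.C, Measurable (fun z : Pt S => z c) := fun c => measurable_pi_apply c
  have hsub : ∀ c : S.C, subV (rnN e (fun z : Pt S => z c)) omN = ⊤ := fun c =>
    ((rea S L e alg).1 _ (meas c)).2
  set x : ι → BSet L := fun i => rnN e (fun z => z (r i)) with hx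
  set Y : BSet L := famN x with hY
  have hY1 : realsV omN Y = ⊤ := by
    unfold realsV
    rw [hY, (fam L ι x).2.1 _ ((ex1 L).1 omN).1]
    rw [iInf_eq_top]
    intro i
    exact hsub (r i)
  have hmem : ∀ i, (x i).mem Y = ⊤ := by
    intro i
    rw [hY, (fam L ι x).1, eq_top_iff, ← BSet.eq_refl (x i)]
    exact le_iSup (fun j => (x i).eq (x j)) i
  have hY2 : nullV omN Y = ⊥ := by
    obtain ⟨Γ, hΓ, _, h2⟩ := avo S L e alg Y
    obtain ⟨i, hi⟩ := P1 Γ hΓ
    have h3 := h2 (r i) (hr i) hi
    have h4 : (rnN e fun z : Pt S => z (r i)).mem Y = ⊤ := hmem i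
    rwa [h4, inf_top_eq] at h3
  have hY3 : ∀ C : BSet L, famV omN C ⊓ (crV omN C ⊓ injV (fun M => M.mem C) (fun y => y.mem Y)) = ⊥ := by
    intro C
    set b : L := famV omN C ⊓ (crV omN C ⊓ injV (fun M => M.mem C) (fun y => y.mem Y)) with hb
    have hb1 : b ≤ famV omN C := inf_le_left
    have hb2 : b ≤ crV omN C := inf_le_right.trans inf_le_left
    have hb3 : b ≤ injV (fun M => M.mem C) (fun y => y.mem (famN x)) :=
      inf_le_right.trans inf_le_right
    obtain ⟨M, c, hc, hcov⟩ := in2 L ι x C b hb3
    choose Γ hΓ _ h2 using fun i => avo S L e alg (M i)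
    obtain ⟨c₀, hc₀, hav⟩ := P2 Γ hΓ
    have hnull : ∀ i, c i ≤ nullV omN (M i) := by
      intro i
      refine (hc i).trans ?_
      refine (inf_le_inf_right _ hb1).trans ?_
      unfold famV
      refine (inf_le_inf_right _ (iInf_le _ (M i))).trans ?_
      exact himp_inf_le
    have hbot : ∀ i, nullV omN (M i) ⊓ (rnN e fun z : Pt S => z c₀).mem (M i) = ⊥ := fun i =>
      h2 i c₀ hc₀ (hav i)
    have h5 : b ≤ ⨆ M' : BSet L, (M'.mem C ⊓ (rnN e fun z : Pt S => z c₀).mem M') := by
      refine hb2.trans ?_
      unfold crV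
      refine (iInf_le _ (rnN e fun z : Pt S => z c₀)).trans ?_
      rw [hsub c₀, top_himp]
    rw [eq_bot_iff]
    calc b = b ⊓ ⨆ M' : BSet L, (M'.mem C ⊓ (rnN e fun z : Pt S => z c₀).mem M') :=
          (inf_eq_left.mpr h5).symm
      _ = ⨆ M' : BSet L, (b ⊓ (M'.mem C ⊓ (rnN e fun z : Pt S => z c₀).mem M')) := inf_iSup_eq _ _
      _ ≤ ⊥ := by
        refine iSup_le fun M' => ?_
        rw [← inf_assoc]
        refine (inf_le_inf_right _ (hcov M')).trans ?_
        rw [iSup_inf_eq]
        refine iSup_le fun i => ?_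
        rw [← hbot i, inf_assoc]
        refine inf_le_inf (hnull i) ?_
        exact BSet.mem_congr_right _ _ _
  rw [eq_top_iff]
  unfold nonV
  refine le_iSup_of_le Y ?_
  rw [hY1, hY2, top_inf_eq, compl_bot, top_inf_eq]
  refine le_iInf fun C => ?_
  rw [le_himp_iff, top_inf_eq, le_himp_iff, le_compl_iff_disjoint_right, disjoint_iff, inf_assoc]
  exact hY3 C

theorem inj_of_bd (W B : Type) [LinearOrder B] [Nonempty B]
    (h : ∀ f : W × ℕ → B, ∃ b, ∀ i, f i < b) : ∃ g : W → B, Function.Injective g := by
  rcases Function.Embedding.total W B with hh | hh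
  · obtain ⟨g⟩ := hh
    exact ⟨g, g.injective⟩
  · obtain ⟨j⟩ := hh
    exfalso
    obtain ⟨b, hb⟩ := h (fun p => Function.invFun j p.1)
    have h1 := hb (j b, 0)
    simp only at h1
    rw [Function.leftInverse_invFun j.injective b] at h1
    exact lt_irrefl _ h1

/-- the `A`-part -/
def pa {A B D : Type} (a₀ : A) : Co A B D → A
  | .x a => a
  | .c a _ => a
  | _ => a₀

/-- the `B`-part -/
def pb {A B D : Type} (b₀ : B) : Co A B D → B
  | .y b => b
  | .c _ b => b
  | _ => b₀

theorem non (ex1 : G_EX1) (_ex2 : G_EX2) (fam : G_FAM) (rea : G_REA) (in2 : G_IN2)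
    (avo : G_AVO) : G_NON := by
  intro W A B D _ _ _ hS L _ e alg
  have := hS.unc
  have : Nonempty W := inferInstance
  obtain ⟨w₀⟩ := ‹Nonempty W›
  rcases isEmpty_or_nonempty A with hA | hA
  · -- `A` is empty
    obtain ⟨b₀, _⟩ := hS.bdB (fun p => isEmptyElim p.1)
    have : Nonempty B := ⟨b₀⟩
    obtain ⟨g, hg⟩ := inj_of_bd W B hS.bdW
    have hsee : ∀ (c : Co A B D) (b : B), ¬ Co.see c (Co.y b) := by
      intro c b
      cases c with
      | c a' b' => exact isEmptyElim a'
      | x a' => exact isEmptyElim a'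
      | y b' => simp [Co.see]
      | d i => simp [Co.see]
    refine core ex1 fam rea in2 avo (Sy A B D) L e alg W (fun w => Co.y (g w))
      (fun w => by simp [Sy, Co.gen]) ?_ ?_
    · intro Γ hΓ
      have hinj : Function.Injective (fun w : W => (Co.y (g w) : Co A B D)) := by
        intro w w' h
        have h' : (Co.y (g w) : Co A B D) = Co.y (g w') := h
        injection h' with h''
        exact hg h''
      have hcount : ((fun w : W => (Co.y (g w) : Co A B D)) ⁻¹' Γ).Countable :=
        Set.Countable.preimage_of_injOn hΓ hinj.injOn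
      have hne : ((fun w : W => (Co.y (g w) : Co A B D)) ⁻¹' Γ) ≠ Set.univ := by
        intro hu
        rw [hu] at hcount
        exact Set.not_countable_univ hcount
      obtain ⟨w, hw⟩ := (Set.ne_univ_iff_exists_notMem _).mp hne
      refine ⟨w, fun c hc => ⟨?_, hsee c (g w)⟩⟩
      intro hcw
      exact hw (by rw [Set.mem_preimage]; rwa [← hcw])
    · intro Γ hΓ
      have : Nonempty (Co A B D) := ⟨Co.y b₀⟩
      have hf : ∀ w : W, ∃ f : ℕ → Co A B D, Γ w ⊆ Set.range f := fun w =>
        Set.countable_iff_exists_subset_range.mp (hΓ w)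
      choose f hf using hf
      obtain ⟨b, hb⟩ := hS.bdW (fun p => pb b₀ (f p.1 p.2))
      refine ⟨Co.y b, by simp [Sy, Co.gen], fun w c hc => ⟨?_, hsee c b⟩⟩
      obtain ⟨n, hn⟩ := hf w hc
      intro hcb
      have h1 := hb (w, n)
      simp only at h1
      rw [hn, hcb] at h1
      exact lt_irrefl _ h1
  · obtain ⟨a₀⟩ := hA
    rcases isEmpty_or_nonempty B with hB | hB
    · -- `B` is empty
      have : Nonempty A := ⟨a₀⟩
      obtain ⟨g, hg⟩ := inj_of_bd W A hS.bdA
      have hsee : ∀ (c : Co A B D) (a : A), ¬ Co.see c (Co.x a) := by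
        intro c a
        cases c with
        | c a' b' => exact isEmptyElim b'
        | x a' => simp [Co.see]
        | y b' => simp [Co.see]
        | d i => simp [Co.see]
      refine core ex1 fam rea in2 avo (Sy A B D) L e alg W (fun w => Co.x (g w))
        (fun w => by simp [Sy, Co.gen]) ?_ ?_
      · intro Γ hΓ
        have hinj : Function.Injective (fun w : W => (Co.x (g w) : Co A B D)) := by
          intro w w' h
          have h' : (Co.x (g w) : Co A B D) = Co.x (g w') := h
          injection h' with h''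
          exact hg h''
        have hcount : ((fun w : W => (Co.x (g w) : Co A B D)) ⁻¹' Γ).Countable :=
          Set.Countable.preimage_of_injOn hΓ hinj.injOn
        have hne : ((fun w : W => (Co.x (g w) : Co A B D)) ⁻¹' Γ) ≠ Set.univ := by
          intro hu
          rw [hu] at hcount
          exact Set.not_countable_univ hcount
        obtain ⟨w, hw⟩ := (Set.ne_univ_iff_exists_notMem _).mp hne
        refine ⟨w, fun c hc => ⟨?_, hsee c (g w)⟩⟩
        intro hcw
        exact hw (by rw [Set.mem_preimage]; rwa [← hcw])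
      · intro Γ hΓ
        have : Nonempty (Co A B D) := ⟨Co.x a₀⟩
        have hf : ∀ w : W, ∃ f : ℕ → Co A B D, Γ w ⊆ Set.range f := fun w =>
          Set.countable_iff_exists_subset_range.mp (hΓ w)
        choose f hf using hf
        obtain ⟨a, ha⟩ := hS.bdA (fun p => pa a₀ (f p.1 p.2))
        refine ⟨Co.x a, by simp [Sy, Co.gen], fun w c hc => ⟨?_, hsee c a⟩⟩
        obtain ⟨n, hn⟩ := hf w hc
        intro hca
        have h1 := ha (w, n)
        simp only at h1
        rw [hn, hca] at h1
        exact lt_irrefl _ h1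
    · obtain ⟨b₀⟩ := hB
      have : Nonempty (Co A B D) := ⟨Co.x a₀⟩
      refine core ex1 fam rea in2 avo (Sy A B D) L e alg A (fun a => Co.x a)
        (fun a => by simp [Sy, Co.gen]) ?_ ?_
      · intro Γ hΓ
        obtain ⟨f, hf⟩ : ∃ f : ℕ → Co A B D, Γ ⊆ Set.range f :=
          Set.countable_iff_exists_subset_range.mp hΓ
        obtain ⟨a, ha⟩ := hS.bdA (fun p => pa a₀ (f p.2))
        refine ⟨a, fun c hc => ?_⟩
        obtain ⟨n, hn⟩ := hf hc
        have h1 := ha (w₀, n)
        simp only at h1
        rw [hn] at h1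
        constructor
        · intro hca
          rw [hca] at h1
          exact lt_irrefl _ h1
        · intro hse
          have hse' : Co.see c (Co.x a) := hse
          cases c with
          | c a' b' => exact lt_irrefl _ (lt_trans hse' h1)
          | x a' => simp [Co.see] at hse'
          | y b' => simp [Co.see] at hse'
          | d i => simp [Co.see] at hse'
      · intro Γ hΓ
        have hf : ∀ a : A, ∃ f : ℕ → Co A B D, Γ a ⊆ Set.range f := fun w =>
          Set.countable_iff_exists_subset_range.mp (hΓ w)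
        choose f hf using hf
        obtain ⟨b, hb⟩ := hS.bdB (fun p => pb b₀ (f p.1 p.2))
        refine ⟨Co.y b, by simp [Sy, Co.gen], fun a c hc => ?_⟩
        obtain ⟨n, hn⟩ := hf a hc
        have h1 := hb (a, n)
        simp only at h1
        rw [hn] at h1
        constructor
        · intro hcb
          rw [hcb] at h1
          exact lt_irrefl _ h1
        · intro hse
          have hse' : Co.see c (Co.y b) := hse
          cases c with
          | c a' b' => exact lt_irrefl _ (lt_trans hse' h1)
          | x a' => simp [Co.see] at hse'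
          | y b' => simp [Co.see] at hse'
          | d i => simp [Co.see] at hse'

end NU.PkNON
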