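import Pool.Agent.Helper46.NU.Goals1

/-!
# MP_1fe1ca_lc, packet STAR: the zero-one law
-/

open MeasureTheory Filter Topology Set
open scoped ENNReal

noncomputable section

namespace NU.PkSTAR

open NU

theorem star (bm : G_BM) (cyl : G_CYL) (ovr_ : G_OVR) (lb : G_LB) (_bai : G_BAI) : G_STAR := by
  intro S K hK hnul
  -- some level is not residually missed
  have h1 : ∃ n : ℕ, ¬ ∀ᶠ φ in residual (Ph S), ¬ (((n : ℝ≥0∞) + 1)⁻¹ ≤ pr S φ K) := by
    by_contra hcon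
    push Not at hcon
    apply hnul
    have h2 : ∀ᶠ φ in residual (Ph S), ∀ n : ℕ, pr S φ K < ((n : ℝ≥0∞) + 1)⁻¹ :=
      eventually_countable_forall.mpr hcon
    show ∀ᶠ φ in residual (Ph S), pr S φ K = 0
    filter_upwards [h2] with φ hφ
    by_contra hne
    obtain ⟨n, hn⟩ := ENNReal.exists_inv_nat_lt hne
    have h3 : ((n : ℝ≥0∞) + 1)⁻¹ ≤ (n : ℝ≥0∞)⁻¹ :=
      ENNReal.inv_le_inv.mpr (le_self_add)
    exact absurd (lt_of_lt_of_le (hφ n) h3) (not_lt.mpr hn.le)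
  obtain ⟨n, hn⟩ := h1
  set r : ℝ≥0∞ := ((n : ℝ≥0∞) + 1)⁻¹ with hr
  have hr0 : r ≠ 0 := by
    rw [hr]
    apply ENNReal.inv_ne_zero.mpr
    exact ENNReal.add_ne_top.mpr ⟨ENNReal.natCast_ne_top n, ENNReal.one_ne_top⟩
  have φ₀ : Ph S := fun _ => ⟨fun _ => false, ∅, fun _ _ _ => rfl⟩
  have hE := bm S K hK r
  obtain ⟨F, φ₁, _, _, hres⟩ := cyl S {φ : Ph S | r ≤ pr S φ K} hE ∅ φ₀ (by
    intro hall
    apply hn
    filter_upwards [hall] with φ hφ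
    exact hφ (fun p hp => absurd hp (Finset.notMem_empty p)))
  have hov := ovr_ S F φ₁ (fun φ => r ≤ pr S φ K) hres
  obtain ⟨D, hD, hlb⟩ := lb S F
  refine ⟨r / (D + 1), ?_, ?_⟩
  · apply (ENNReal.div_ne_zero).mpr
    exact ⟨hr0, ENNReal.add_ne_top.mpr ⟨hD, ENNReal.one_ne_top⟩⟩
  · filter_upwards [hov] with φ hφ
    apply ENNReal.div_le_of_le_mul
    have h4 := hlb φ (ovr F φ₁ φ) (fun p hp => by simp [ovr, hp]) K hK
    calc r ≤ pr S (ovr F φ₁ φ) K := hφ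
      _ ≤ D * pr S φ K := h4
      _ ≤ pr S φ K * (D + 1) := by
        rw [mul_comm]
        exact mul_le_mul_right le_self_add _

end NU.PkSTAR
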